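import Pool.Agent.helper4.EC.Spec

set_option autoImplicit false

namespace Pool.Agent.helper4.EC

open Finset

universe u

theorem CF (h1 : SA_stmt.{u}) (h2 : C4_stmt.{u}) : CF_stmt.{u} := by
  intro V _ G hch X x y x' y' hX hs hs' hne hyy
  obtain ⟨hxX, hyX, hxy, hB⟩ := hs
  obtain ⟨hx'X, hy'X, hx'y', hD⟩ := hs'
  have hx'B : x' ∈ insert y (X.erase x) := mem_insert_of_mem (mem_erase.mpr ⟨hne.symm, hx'X⟩)
  have hxD : x ∈ insert y' (X.erase x') := mem_insert_of_mem (mem_erase.mpr ⟨hne, hxX⟩)
  have hyB : y ∈ insert y (X.erase x) := mem_insert_self _ _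
  have hy'D : y' ∈ insert y' (X.erase x') := mem_insert_self _ _
  have hyx' : ¬ G.Adj y x' := hB.1.1 y hyB x' hx'B
  have hy'x : ¬ G.Adj y' x := hD.1.1 y' hy'D x hxD
  have hyne : y ≠ y' := by
    rintro rfl
    exact hyx' hx'y'.symm
  have hxy' : x ≠ y := fun h => hyX (h ▸ hxX)
  have hx'ny' : x' ≠ y' := fun h => hy'X (h ▸ hx'X)
  -- membership in Z
  have mZ : ∀ v, v ∈ insert y (insert y' ((X.erase x).erase x')) ↔ v = y ∨ v = y' ∨ (v ≠ x' ∧ v ≠ x ∧ v ∈ X) := by
    intro v
    rw [mem_insert, mem_insert, mem_erase, mem_erase]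
  have hindZ : ∀ a ∈ insert y (insert y' ((X.erase x).erase x')), ∀ b ∈ insert y (insert y' ((X.erase x).erase x')), ¬ G.Adj a b := by
    have hyv : ∀ v, v ≠ x → v ∈ X → ¬ G.Adj y v := fun v h3 h4 =>
      hB.1.1 y hyB v (mem_insert_of_mem (mem_erase.mpr ⟨h3, h4⟩))
    have hy'v : ∀ v, v ≠ x' → v ∈ X → ¬ G.Adj y' v := fun v h3 h4 =>
      hD.1.1 y' hy'D v (mem_insert_of_mem (mem_erase.mpr ⟨h3, h4⟩))
    intro a ha b hb hab
    rw [mZ] at ha hb
    rcases ha with rfl | rfl | ⟨ha1, ha2, ha3⟩
    · rcases hb with rfl | rfl | ⟨hb1, hb2, hb3⟩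
      · exact G.loopless.irrefl _ hab
      · exact hyy hab
      · exact hyv b hb2 hb3 hab
    · rcases hb with rfl | rfl | ⟨hb1, hb2, hb3⟩
      · exact hyy hab.symm
      · exact G.loopless.irrefl _ hab
      · exact hy'v b hb1 hb3 hab
    · rcases hb with rfl | rfl | ⟨hb1, hb2, hb3⟩
      · exact hyv a ha2 ha3 hab.symm
      · exact hy'v a ha1 ha3 hab.symm
      · exact hX.1.1 a ha3 b hb3 hab
  have hcardZ : (insert y (insert y' ((X.erase x).erase x'))).card = X.card := by
    have e1 : y' ∉ (X.erase x).erase x' := fun h => hy'X (mem_of_mem_erase (mem_of_mem_erase h))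
    have e2 : y ∉ insert y' ((X.erase x).erase x') := by
      intro h
      rw [mem_insert] at h
      rcases h with h | h
      · exact hyne h
      · exact hyX (mem_of_mem_erase (mem_of_mem_erase h))
    have e3 : x' ∈ X.erase x := mem_erase.mpr ⟨hne.symm, hx'X⟩
    have c1 := Finset.card_erase_add_one e3
    have c2 := Finset.card_erase_add_one hxX
    rw [card_insert_of_notMem e2, card_insert_of_notMem e1]
    omega
  by_cases hdom : ∀ v, v ∉ insert y (insert y' ((X.erase x).erase x')) → ∃ w ∈ insert y (insert y' ((X.erase x).erase x')), G.Adj w v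
  · exfalso
    have hZ : IsISet G (insert y (insert y' ((X.erase x).erase x'))) := by
      refine ⟨⟨hindZ, hdom⟩, fun T hT => ?_⟩
      rw [hcardZ]
      exact hX.2 T hT
    have eB : insert y' ((insert y (X.erase x)).erase x') = insert y (insert y' ((X.erase x).erase x')) := by
      ext v
      rw [mZ, mem_insert, mem_erase, mem_insert, mem_erase]
      constructor
      · rintro (h | ⟨h3, h | ⟨h4, h5⟩⟩)
        · exact Or.inr (Or.inl h)
        · exact Or.inl h
        · exact Or.inr (Or.inr ⟨h3, h4, h5⟩)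
      · rintro (h | h | ⟨h3, h4, h5⟩)
        · refine Or.inr ⟨?_, Or.inl h⟩
          rw [h]
          exact fun h6 => hyX (h6 ▸ hx'X)
        · exact Or.inl h
        · exact Or.inr ⟨h3, Or.inr ⟨h4, h5⟩⟩
    have eD : insert y ((insert y' (X.erase x')).erase x) = insert y (insert y' ((X.erase x).erase x')) := by
      ext v
      rw [mZ, mem_insert, mem_erase, mem_insert, mem_erase]
      constructor
      · rintro (h | ⟨h3, h | ⟨h4, h5⟩⟩)
        · exact Or.inl h
        · exact Or.inr (Or.inl h)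
        · exact Or.inr (Or.inr ⟨h4, h3, h5⟩)
      · rintro (h | h | ⟨h3, h4, h5⟩)
        · exact Or.inl h
        · refine Or.inr ⟨?_, Or.inl h⟩
          rw [h]
          exact fun h6 => hy'X (h6 ▸ hxX)
        · exact Or.inr ⟨h4, Or.inr ⟨h3, h5⟩⟩
    have hy'nB : y' ∉ insert y (X.erase x) := by
      intro h
      rw [mem_insert] at h
      rcases h with h | h
      · exact hyne h.symm
      · exact hy'X (mem_of_mem_erase h)
    have hynD : y ∉ insert y' (X.erase x') := by
      intro h
      rw [mem_insert] at h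
      rcases h with h | h
      · exact hyne h
      · exact hyX (mem_of_mem_erase h)
    have a1 : (iGraph G).Adj ⟨X, hX⟩ ⟨insert y (X.erase x), hB⟩ :=
      (h1 V G ⟨X, hX⟩ ⟨insert y (X.erase x), hB⟩).mpr ⟨x, y, ⟨hxX, hyX, hxy, hB⟩, rfl⟩
    have a2 : (iGraph G).Adj ⟨insert y (X.erase x), hB⟩ ⟨insert y (insert y' ((X.erase x).erase x')), hZ⟩ :=
      (h1 V G ⟨insert y (X.erase x), hB⟩ ⟨insert y (insert y' ((X.erase x).erase x')), hZ⟩).mpr
        ⟨x', y', ⟨hx'B, hy'nB, hx'y', eB ▸ hZ⟩, eB.symm⟩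
    have a3 : (iGraph G).Adj ⟨insert y' (X.erase x'), hD⟩ ⟨insert y (insert y' ((X.erase x).erase x')), hZ⟩ :=
      (h1 V G ⟨insert y' (X.erase x'), hD⟩ ⟨insert y (insert y' ((X.erase x).erase x')), hZ⟩).mpr
        ⟨x, y, ⟨hxD, hynD, hxy, eD ▸ hZ⟩, eD.symm⟩
    have a4 : (iGraph G).Adj ⟨X, hX⟩ ⟨insert y' (X.erase x'), hD⟩ :=
      (h1 V G ⟨X, hX⟩ ⟨insert y' (X.erase x'), hD⟩).mpr ⟨x', y', ⟨hx'X, hy'X, hx'y', hD⟩, rfl⟩
    have hyZ : y ∈ insert y (insert y' ((X.erase x).erase x')) := mem_insert_self _ _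
    have hy'Z : y' ∈ insert y (insert y' ((X.erase x).erase x')) := mem_insert_of_mem (mem_insert_self _ _)
    have n1 : (⟨X, hX⟩ : {S : Finset V // IsISet G S}) ≠ ⟨insert y (insert y' ((X.erase x).erase x')), hZ⟩ := by
      intro h
      have h3 : X = insert y (insert y' ((X.erase x).erase x')) := congrArg Subtype.val h
      exact hyX (h3 ▸ hyZ)
    have n2 : (⟨insert y (X.erase x), hB⟩ : {S : Finset V // IsISet G S}) ≠ ⟨insert y' (X.erase x'), hD⟩ := by
      intro h
      have h3 : insert y (X.erase x) = insert y' (X.erase x') := congrArg Subtype.val h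
      exact hynD (h3 ▸ hyB)
    rcases (h2 {S : Finset V // IsISet G S} (iGraph G) hch).1 _ _ _ _ a1 a2 a3.symm a4.symm n1 n2 with h | h
    · obtain ⟨p, q, hpq, he⟩ := (h1 V G _ _).mp h
      have he' : insert y (insert y' ((X.erase x).erase x')) = insert q (X.erase p) := he
      rw [he', mem_insert] at hyZ hy'Z
      have g1 : y = q := by
        rcases hyZ with h3 | h3
        · exact h3
        · exact absurd (mem_of_mem_erase h3) hyX
      have g2 : y' = q := by
        rcases hy'Z with h3 | h3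
        · exact h3
        · exact absurd (mem_of_mem_erase h3) hy'X
      exact hyne (g1.trans g2.symm)
    · obtain ⟨p, q, hpq, he⟩ := (h1 V G _ _).mp h
      have he' : insert y' (X.erase x') = insert q ((insert y (X.erase x)).erase p) := he
      rw [he', mem_insert] at hxD hy'D
      have g1 : y' = q := by
        rcases hy'D with h3 | h3
        · exact h3
        · exact absurd (mem_of_mem_erase h3) hy'nB
      have g2 : x = q := by
        rcases hxD with h3 | h3
        · exact h3
        · have h4 := mem_of_mem_erase h3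
          rw [mem_insert] at h4
          rcases h4 with h5 | h5
          · exact absurd h5 hxy'
          · exact absurd rfl (ne_of_mem_erase h5)
      exact hy'X ((g2.trans g1.symm) ▸ hxX)
  · push Not at hdom
    obtain ⟨v, hvZ, hv⟩ := hdom
    have hyv : ¬ G.Adj y v := hv y ((mZ y).mpr (Or.inl rfl))
    have hy'v : ¬ G.Adj y' v := hv y' ((mZ y').mpr (Or.inr (Or.inl rfl)))
    have hvx' : v ≠ x' := by
      rintro rfl
      exact hy'v hx'y'.symm
    have hvx : v ≠ x := by
      rintro rfl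
      exact hyv hxy.symm
    have hvX : v ∉ X := fun h => hvZ ((mZ v).mpr (Or.inr (Or.inr ⟨hvx', hvx, h⟩)))
    have hvy : v ≠ y := fun h => hvZ ((mZ v).mpr (Or.inl h))
    have hvy' : v ≠ y' := fun h => hvZ ((mZ v).mpr (Or.inr (Or.inl h)))
    have hvB : v ∉ insert y (X.erase x) := by
      intro h
      rw [mem_insert] at h
      rcases h with h | h
      · exact hvy h
      · exact hvX (mem_of_mem_erase h)
    have hvD : v ∉ insert y' (X.erase x') := by
      intro h
      rw [mem_insert] at h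
      rcases h with h | h
      · exact hvy' h
      · exact hvX (mem_of_mem_erase h)
    obtain ⟨w, hw, hwv⟩ := hB.1.2 v hvB
    obtain ⟨w', hw', hwv'⟩ := hD.1.2 v hvD
    have hw1 : w = x' := by
      rw [mem_insert, mem_erase] at hw
      rcases hw with h | ⟨h3, h4⟩
      · rw [h] at hwv
        exact absurd hwv hyv
      · by_contra h5
        exact hv w ((mZ w).mpr (Or.inr (Or.inr ⟨h5, h3, h4⟩))) hwv
    have hw2 : w' = x := by
      rw [mem_insert, mem_erase] at hw'
      rcases hw' with h | ⟨h3, h4⟩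
      · rw [h] at hwv'
        exact absurd hwv' hy'v
      · by_contra h5
        exact hv w' ((mZ w').mpr (Or.inr (Or.inr ⟨h3, h5, h4⟩))) hwv'
    exact ⟨v, hw2 ▸ hwv', hw1 ▸ hwv, hyv, hy'v⟩

end Pool.Agent.helper4.EC
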